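import Pool.Agent.Helper19.SQ.GoalsQ2
import Pool.Agent.Helper4.SQ.DE

/-!
Project SQ (MP_bb32d1_al), packet EL: the entries of `eps(L)`.
-/

set_option autoImplicit false

namespace Pool.Agent.Helper81.SQ

open Pool.Agent.Helper19.SQ
open Pool.Agent.Helper4.SQ (scH dgH sc_dg sc_mul_dg scH_apply dgH_eq kk_map kk_wK cm_sd qne)

variable {N l : ℕ} {q : ℂ}

theorem ep_cE (hP : Par N l q) :
    cE l (fun i => scH N (A N l q) (wE N q i)) (fun i => scH N (A N l q) (wK N q i))
      (fun i => dgH N (A N l q) (gE N l q i)) = eE N q (gE N l q) := by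
  funext k
  ext a b
  rw [cE, kk_map, Matrix.add_apply, sc_mul_dg, kk_wK hP, scH_apply, eE, Matrix.of_apply, wE,
    Matrix.of_apply, add_comm, Matrix.diagonal_apply]
  congr 1
  · split_ifs <;> simp
  · split_ifs
    · rw [Algebra.algebraMap_eq_smul_one]
    · simp

/-- the entries of `E'_ij` times `K'_j`. -/
theorem wE_wK (hV : S_VRV) (hP : Par N l q) {b p : ℕ} (hbp : b < p) (r s : Fin (N + 1)) :
    (rv q (wE N q) b p * wK N q p) r s = if (r : ℕ) = p ∧ (s : ℕ) = b ∧ p ≤ N then -q else 0 := by
  rw [(hV N q (qne hP) b p hbp).2.2.2.1, wK, Matrix.mul_diagonal, Matrix.of_apply]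
  by_cases h : (r : ℕ) = p ∧ (s : ℕ) = b ∧ p ≤ N
  · rw [if_pos h, if_neg (by omega), mul_one]
  · rw [if_neg h, zero_mul]

/-- the image of a root vector times `K_a`. -/
theorem ep_rv (hCR : S_CR) (hV : S_VRV) (hR : S_VREP) (hKI : S_KI) (hHF : S_HF)
    (hP : Par N l q) (D : Dl N l q) {b a : ℕ} (hba : b < a) (r s : Fin (N + 1)) :
    D.ep (rv q (gE N l q) b a * gK N l q a) r s =
      (if (r : ℕ) = a ∧ (s : ℕ) = b ∧ a ≤ N then -q else 0) • gK N l q a +
      (1 - q⁻¹ ^ 2) • ∑ p ∈ Finset.Ioo b a,
        (if (r : ℕ) = p ∧ (s : ℕ) = b ∧ p ≤ N then -q else 0) •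
          (rv q (gE N l q) p a * gK N l q a) +
      (wK N q b) r s • (rv q (gE N l q) b a * gK N l q a) := by
  have hq := qne hP
  have hl1 : 1 ≤ l := by have := hP.h3; omega
  have e1 : D.ep (rv q (gE N l q) b a) = rv q (cE l (fun i => scH N (A N l q) (wE N q i))
      (fun i => scH N (A N l q) (wK N q i)) (fun i => dgH N (A N l q) (gE N l q i))) b a := by
    rw [ep_cE hP, ← rv_map]
    congr 1
    funext k
    exact D.ep_E k
  have e2 : D.ep (gK N l q a) = scH N (A N l q) (wK N q a) * dgH N (A N l q) (gK N l q a) := by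
    rw [D.ep_K]
    ext i j
    rw [sc_mul_dg, eK, Matrix.of_apply, wK, Matrix.diagonal_apply]
    split_ifs <;> simp
  have hw := (hR N l q hP).2
  have hw1 := (hHF _ N l q _ _ _ hl1 hq (hw.map (scH N (A N l q)))).1
  have hg := (hHF _ N l q _ _ _ hl1 hq ((glA N l q).map (dgH N (A N l q)))).1
  have hcr := hCR _ l q _ _ _ hl1 hq hw1 hg.sE (cm_sd _ _) (cm_sd _ _) b a hba
  rw [map_mul, e1, e2, hcr]
  obtain ⟨-, hk2, -, -, -, -⟩ := hKI _ l (wK N q) hl1 hw.K_comm hw.K_pow
  have hkk : ∀ p, kk l (wK N q) p a * wK N q a = wK N q p := fun p => by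
    rw [kk, mul_assoc, hk2, mul_one]
  -- the three kinds of terms
  have t1 : (rv q (fun i => scH N (A N l q) (wE N q i)) b a *
      (scH N (A N l q) (wK N q a) * dgH N (A N l q) (gK N l q a))) r s =
      (if (r : ℕ) = a ∧ (s : ℕ) = b ∧ a ≤ N then -q else 0) • gK N l q a := by
    rw [rv_map, ← mul_assoc, ← map_mul, sc_mul_dg, wE_wK hV hP hba]
  have t2 : ∀ p ∈ Finset.Ioo b a, (rv q (fun i => scH N (A N l q) (wE N q i)) b p *
      (kk l (fun i => scH N (A N l q) (wK N q i)) p a *
        rv q (fun i => dgH N (A N l q) (gE N l q i)) p a) *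
      (scH N (A N l q) (wK N q a) * dgH N (A N l q) (gK N l q a))) r s =
      (if (r : ℕ) = p ∧ (s : ℕ) = b ∧ p ≤ N then -q else 0) •
          (rv q (gE N l q) p a * gK N l q a) := by
    intro p hp
    rw [Finset.mem_Ioo] at hp
    rw [rv_map, rv_map, kk_map]
    have e3 : scH N (A N l q) (rv q (wE N q) b p) * (scH N (A N l q) (kk l (wK N q) p a) *
        dgH N (A N l q) (rv q (gE N l q) p a)) *
        (scH N (A N l q) (wK N q a) * dgH N (A N l q) (gK N l q a)) =
        scH N (A N l q) (rv q (wE N q) b p * wK N q p) *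
          dgH N (A N l q) (rv q (gE N l q) p a * gK N l q a) := by
      have hc := sc_dg (wK N q a) (rv q (gE N l q) p a)
      rw [← hkk p, map_mul, map_mul, map_mul]
      simp only [mul_assoc]
      rw [← mul_assoc (dgH N (A N l q) (rv q (gE N l q) p a)), ← hc]
      simp only [mul_assoc]
    rw [e3, sc_mul_dg, wE_wK hV hP hp.1]
  have t3 : (kk l (fun i => scH N (A N l q) (wK N q i)) b a *
      rv q (fun i => dgH N (A N l q) (gE N l q i)) b a *
      (scH N (A N l q) (wK N q a) * dgH N (A N l q) (gK N l q a))) r s =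
      (wK N q b) r s • (rv q (gE N l q) b a * gK N l q a) := by
    rw [rv_map, kk_map]
    have e3 : scH N (A N l q) (kk l (wK N q) b a) * dgH N (A N l q) (rv q (gE N l q) b a) *
        (scH N (A N l q) (wK N q a) * dgH N (A N l q) (gK N l q a)) =
        scH N (A N l q) (wK N q b) * dgH N (A N l q) (rv q (gE N l q) b a * gK N l q a) := by
      have hc := sc_dg (wK N q a) (rv q (gE N l q) b a)
      rw [← hkk b, map_mul, map_mul]
      simp only [mul_assoc]
      rw [← mul_assoc (dgH N (A N l q) (rv q (gE N l q) b a)), ← hc]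
      simp only [mul_assoc]
    rw [e3, sc_mul_dg]
  rw [add_mul, add_mul, Matrix.add_apply, Matrix.add_apply, t1, t3, smul_mul_assoc,
    Matrix.smul_apply, Finset.sum_mul, Matrix.sum_apply, Finset.sum_congr rfl t2]

theorem sEL (hCR : S_CR) (hV : S_VRV) (hR : S_VREP) (hKI : S_KI) (hHF : S_HF) : S_EL := by
  intro N l q hP D a b r s
  have hq := qne hP
  -- the right side as a sum over numbers
  have hsum : ∑ p : Fin (N + 1), RLm N q (p, r) (b, s) • Lent q (gE N l q) (gK N l q) a p =
      ∑ p ∈ Finset.range (N + 1), (if p = (b : ℕ) then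
        (if (r : ℕ) = s then (if (s : ℕ) = b then q⁻¹ else 1) else 0) else if (b : ℕ) < p then
          (if (r : ℕ) = p ∧ (s : ℕ) = b then -(q - q⁻¹) else 0) else 0) •
          Lent q (gE N l q) (gK N l q) a p := by
    rw [← Fin.sum_univ_eq_sum_range (fun p => (if p = (b : ℕ) then
        (if (r : ℕ) = s then (if (s : ℕ) = b then q⁻¹ else 1) else 0) else if (b : ℕ) < p then
          (if (r : ℕ) = p ∧ (s : ℕ) = b then -(q - q⁻¹) else 0) else 0) •
          Lent q (gE N l q) (gK N l q) a p)]
    refine Finset.sum_congr rfl fun p _ => ?_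
    congr 1
    unfold RLm
    rw [Matrix.of_apply]
    simp only [Fin.ext_iff, Fin.lt_def]
  rw [hsum]
  rcases lt_trichotomy (a : ℕ) b with hab | hab | hab
  · have h1 : Lent q (gE N l q) (gK N l q) a b = 0 := by
      unfold Lent
      rw [if_neg (by omega), if_neg (by omega)]
    rw [h1, map_zero]
    symm
    refine Finset.sum_eq_zero fun p _ => ?_
    rcases lt_or_ge p (b : ℕ) with h2 | h2
    · rw [if_neg (by omega), if_neg (by omega), zero_smul]
    · have h3 : Lent q (gE N l q) (gK N l q) a p = 0 := by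
        unfold Lent
        rw [if_neg (by omega), if_neg (by omega)]
      rw [h3, smul_zero]
  · have h1 : Lent q (gE N l q) (gK N l q) a b = gK N l q a := if_pos hab
    rw [h1, D.ep_K, Finset.sum_eq_single (b : ℕ)]
    · rw [if_pos rfl, h1, eK, Matrix.of_apply]
      simp only [Fin.ext_iff]
      by_cases h2 : (r : ℕ) = s
      · rw [if_pos h2, if_pos h2, h2, hab]
      · rw [if_neg h2, if_neg h2, zero_smul]
    · intro p _ hp
      rcases lt_or_ge p (b : ℕ) with h2 | h2
      · rw [if_neg hp, if_neg (by omega), zero_smul]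
      · have h3 : Lent q (gE N l q) (gK N l q) a p = 0 := by
          unfold Lent
          rw [if_neg (by omega), if_neg (by omega)]
        rw [h3, smul_zero]
    · intro h
      exact absurd (Finset.mem_range.2 b.2) h
  · -- the main case
    have h1 : Lent q (gE N l q) (gK N l q) a b =
        (1 - q⁻¹ ^ 2) • (rv q (gE N l q) b a * gK N l q a) := by
      unfold Lent
      rw [if_neg (by omega), if_pos hab]
    rw [h1, map_smul, Matrix.smul_apply, ep_rv hCR hV hR hKI hHF hP D hab]
    have hsub : insert (b : ℕ) (insert (a : ℕ) (Finset.Ioo (b : ℕ) a)) ⊆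
        Finset.range (N + 1) := by
      intro p hp
      rw [Finset.mem_insert, Finset.mem_insert, Finset.mem_Ioo] at hp
      rw [Finset.mem_range]
      omega
    rw [← Finset.sum_subset hsub]
    · rw [Finset.sum_insert, Finset.sum_insert]
      · rw [if_pos rfl, if_neg (by omega : ¬(a : ℕ) = b), if_pos hab, h1]
        have h2 : Lent q (gE N l q) (gK N l q) a a = gK N l q a := if_pos rfl
        rw [h2]
        have h3 : ∑ p ∈ Finset.Ioo (b : ℕ) a, (if p = (b : ℕ) then
            (if (r : ℕ) = s then (if (s : ℕ) = b then q⁻¹ else 1) else 0) else if (b : ℕ) < p then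
            (if (r : ℕ) = p ∧ (s : ℕ) = b then -(q - q⁻¹) else 0) else 0) •
            Lent q (gE N l q) (gK N l q) a p = (1 - q⁻¹ ^ 2) • ((1 - q⁻¹ ^ 2) •
            ∑ p ∈ Finset.Ioo (b : ℕ) a, (if (r : ℕ) = p ∧ (s : ℕ) = b ∧ p ≤ N then -q else 0) •
              (rv q (gE N l q) p a * gK N l q a)) := by
          rw [Finset.smul_sum, Finset.smul_sum]
          refine Finset.sum_congr rfl fun p hp => ?_
          rw [Finset.mem_Ioo] at hp
          have h4 : Lent q (gE N l q) (gK N l q) a p =
              (1 - q⁻¹ ^ 2) • (rv q (gE N l q) p a * gK N l q a) := by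
            unfold Lent
            rw [if_neg (by omega), if_pos hp.2]
          rw [h4, if_neg (by omega), if_pos hp.1, smul_smul, smul_smul, smul_smul]
          congr 1
          by_cases h5 : (r : ℕ) = p ∧ (s : ℕ) = b
          · rw [if_pos h5, if_pos ⟨h5.1, h5.2, by omega⟩]
            field_simp
          · rw [if_neg h5, if_neg fun h6 => h5 ⟨h6.1, h6.2.1⟩]
            ring
        rw [h3, smul_add, smul_add]
        have h6 : (wK N q b) r s =
            if (r : ℕ) = s then (if (s : ℕ) = b then q⁻¹ else 1) else 0 := by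
          rw [wK, Matrix.diagonal_apply]
          simp only [Fin.ext_iff]
          by_cases h7 : (r : ℕ) = s
          · rw [if_pos h7, if_pos h7, h7]
          · rw [if_neg h7, if_neg h7]
        have h8 : (1 - q⁻¹ ^ 2) • ((if (r : ℕ) = a ∧ (s : ℕ) = b ∧ (a : ℕ) ≤ N then -q else 0) •
            gK N l q a) = (if (r : ℕ) = a ∧ (s : ℕ) = b then -(q - q⁻¹) else 0) • gK N l q a := by
          rw [smul_smul]
          congr 1
          by_cases h5 : (r : ℕ) = a ∧ (s : ℕ) = b
          · rw [if_pos h5, if_pos ⟨h5.1, h5.2, by omega⟩]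
            field_simp
          · rw [if_neg h5, if_neg fun h6 => h5 ⟨h6.1, h6.2.1⟩]
            ring
        rw [h8, h6, smul_comm (1 - q⁻¹ ^ 2)
          (if (r : ℕ) = s then (if (s : ℕ) = b then q⁻¹ else 1) else 0 : ℂ)]
        abel
      · rw [Finset.mem_Ioo]
        omega
      · rw [Finset.mem_insert, Finset.mem_Ioo]
        omega
    · intro p _ hp
      rw [Finset.mem_insert, Finset.mem_insert, Finset.mem_Ioo] at hp
      rcases lt_or_ge p (b : ℕ) with h2 | h2
      · rw [if_neg (by omega), if_neg (by omega), zero_smul]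
      · have h3 : Lent q (gE N l q) (gK N l q) a p = 0 := by
          unfold Lent
          rw [if_neg (by omega), if_neg (by omega)]
        rw [h3, smul_zero]

end Pool.Agent.Helper81.SQ
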