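import Pool.Agent.Helper84.SQ.GoalsB

/-! # The code of an instance: the truncated system (packet SQ-CDA) -/

namespace Pool.Agent.Helper81.SQ

open Pool.Agent.Helper81.CC Pool.Agent.Bin
open Pool.Agent.Helper84.SQ
open Pool.Agent.Helper45.SQP (Inst Code intCode)

theorem val_zof (z : ℤ) : Zn.val (zof (intCode z)) = z := by
  unfold zof intCode
  by_cases h : z < 0
  · simp only [h, decide_true, if_true, Zn.val_bn', BN.ofBits, bval_bits]
    omega
  · simp only [h, decide_false, Bool.false_eq_true, if_false, Zn.val_bn, BN.ofBits, bval_bits]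
    omega

theorem lz_unitR (d : ℕ) (i : Fin d) (s : Zn) :
    lz d (unitR d i s) = Pi.single i (Zn.val s) := by
  funext j
  unfold lz unitR
  rw [List.getD_eq_getElem _ _ (by simp)]
  simp only [List.getElem_map, List.getElem_range]
  by_cases h : j = i
  · subst h; simp
  · rw [Pi.single_eq_of_ne h, if_neg (fun e => h (Fin.ext e)), Zn.val_zero]

theorem lz_ofFn (d : ℕ) (f : Fin d → Zn) : lz d (List.ofFn f) = fun j => Zn.val (f j) := by
  funext j
  unfold lz
  rw [List.getD_eq_getElem _ _ (by simp)]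
  simp

theorem szC_eq (I : Inst) : szC I.code = I.n + ∑ i, ((Nat.bits (I.w i).natAbs).length + 1) +
    ∑ j, ((Nat.bits (I.h j).natAbs).length + (Nat.bits (I.q j)).length) := by
  unfold szC Inst.code intCode
  simp only [List.length_ofFn, List.map_ofFn, List.sum_ofFn]
  rfl

theorem bits_lt (k : ℕ) : k < 2 ^ (Nat.bits k).length := by
  have := Nat.lt_size_self k
  rwa [Nat.size_eq_bits_len] 

theorem mem_trcC (I : Inst) (r : Row) : r ∈ trcC I.code ↔
    (∃ i, r = (List.ofFn fun j => zof (intCode (I.W i j)), zof (intCode (I.w i)))) ∨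
    (∃ i : Fin I.n, r = (unitR I.n i Zn.one, (BN.pow2 (szC I.code), ⟨0⟩))) ∨
    (∃ i : Fin I.n, r = (unitR I.n i (Zn.neg Zn.one), (BN.pow2 (szC I.code), ⟨0⟩))) := by
  have hn : I.code.2.length = I.n := by simp [Inst.code]
  unfold trcC boxR
  rw [hn]
  simp only [List.mem_append, List.mem_map, List.mem_range]
  have h1 : r ∈ rowsC I.code ↔
      ∃ i, r = (List.ofFn fun j => zof (intCode (I.W i j)), zof (intCode (I.w i))) := by
    unfold rowsC Inst.code
    simp only [List.map_ofFn, List.mem_ofFn, Function.comp_def]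
    constructor
    · rintro ⟨i, hi⟩
      exact ⟨i, hi.symm⟩
    · rintro ⟨i, hi⟩
      exact ⟨i, hi.symm⟩
  have hg : ∀ (a : Zn) (i : ℕ), i < I.n → (List.replicate I.n a).getD i Zn.zero = a := by
    intro a i hi
    rw [List.getD_eq_getElem _ _ (by simpa using hi)]
    simp
  rw [h1]
  refine or_congr Iff.rfl (or_congr ?_ ?_)
  · constructor
    · rintro ⟨i, hi, rfl⟩
      exact ⟨⟨i, hi⟩, by rw [hg _ _ hi]⟩
    · rintro ⟨i, rfl⟩
      exact ⟨i, i.2, by rw [hg _ _ i.2]⟩
  · constructor
    · rintro ⟨i, hi, rfl⟩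
      exact ⟨⟨i, hi⟩, by rw [hg _ _ hi]; rfl⟩
    · rintro ⟨i, rfl⟩
      exact ⟨i, i.2, by rw [hg _ _ i.2]; rfl⟩

theorem sum_pow {ι : Type*} (s : Finset ι) (a : ι → ℕ) :
    ∑ i ∈ s, 2 ^ a i ≤ 2 ^ (∑ i ∈ s, (a i + 1)) := by
  classical
  induction s using Finset.induction_on with
  | empty => simp
  | insert i s hi ih =>
    rw [Finset.sum_insert hi, Finset.sum_insert hi, pow_add, pow_succ]
    have h1 : 1 ≤ 2 ^ a i := Nat.one_le_two_pow
    have h2 : 1 ≤ 2 ^ (∑ i ∈ s, (a i + 1)) := Nat.one_le_two_pow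
    nlinarith

theorem cda (hT : TurStmt) : CdaStmt := by
  intro I htu
  have hn : I.code.2.length = I.n := by simp [Inst.code]
  obtain ⟨s, hs⟩ : ∃ s, szC I.code = s := ⟨_, rfl⟩
  have hsz := szC_eq I
  rw [hs] at hsz
  have hp : Zn.val (BN.pow2 s, (⟨0⟩ : BN)) = 2 ^ s := by
    rw [Zn.val_bn]
    simp [BN.pow2]
  have hmem := mem_trcC I
  rw [hs] at hmem ⊢
  have hWrow : ∀ i, lz I.n (List.ofFn fun j => zof (intCode (I.W i j))) = I.W i := by
    intro i
    rw [lz_ofFn]
    funext j
    rw [val_zof]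
  have hU : ∀ i : Fin I.n, lz I.n (unitR I.n i Zn.one) = Pi.single i 1 := by
    intro i
    rw [lz_unitR, Zn.val_one]
  have hU' : ∀ i : Fin I.n, lz I.n (unitR I.n i (Zn.neg Zn.one)) = Pi.single i (-1) := by
    intro i
    rw [lz_unitR, Zn.val_neg, Zn.val_one]
  have hone : (1 : ℤ) ≤ 2 ^ s := one_le_pow₀ (by norm_num)
  have hoff : (fobC I.code) = List.ofFn fun j =>
      (if decide (j ∈ I.C) = true then BN.ofBits (Nat.bits (I.q j)) else ⟨0⟩,
        zof (intCode (I.h j))) := by
    unfold fobC Inst.code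
    simp only [List.map_ofFn]
    rfl
  have hqs : ∀ j, (Nat.bits (I.q j)).length ≤ s := by
    intro j
    have := Finset.single_le_sum (f := fun j : Fin I.n =>
      (Nat.bits (I.h j).natAbs).length + (Nat.bits (I.q j)).length) (fun _ _ => Nat.zero_le _)
      (Finset.mem_univ j)
    omega
  have hhs : ∀ j, (Nat.bits (I.h j).natAbs).length ≤ s := by
    intro j
    have := Finset.single_le_sum (f := fun j : Fin I.n =>
      (Nat.bits (I.h j).natAbs).length + (Nat.bits (I.q j)).length) (fun _ _ => Nat.zero_le _)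
      (Finset.mem_univ j)
    omega
  have hpow : ∀ k l : ℕ, (Nat.bits k).length ≤ l → (k : ℤ) ≤ 2 ^ l := by
    intro k l h
    have h1 := bits_lt k
    have h2 : 2 ^ (Nat.bits k).length ≤ 2 ^ l := Nat.pow_le_pow_right (by norm_num) h
    exact_mod_cast (h1.le.trans h2)
  refine ⟨hn, ⟨I.n_pos, by omega, ?_, ?_, ?_, ?_, ?_, ?_⟩, ?_, ?_⟩
  · intro r hr
    rcases (hmem r).1 hr with ⟨i, rfl⟩ | ⟨i, rfl⟩ | ⟨i, rfl⟩
    · simp
    · simp [unitR]
    · simp [unitR]
  · rw [hoff]
    simp
  · refine hT I.m I.n _ I.W _ htu ?_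
    intro i
    have hr := List.get_mem (trcC I.code) i
    rcases (hmem _).1 hr with ⟨k, hk⟩ | ⟨k, hk⟩ | ⟨k, hk⟩
    · left
      refine ⟨k, ?_⟩
      show lz I.n ((trcC I.code).get i).1 = I.W k
      rw [hk, hWrow]
    · right; right; left
      refine ⟨k, ?_⟩
      show lz I.n ((trcC I.code).get i).1 = _
      rw [hk, hU]
    · right; right; right; left
      refine ⟨k, ?_⟩
      show lz I.n ((trcC I.code).get i).1 = _
      rw [hk, hU']
  · intro x hx j
    have h1 := hx _ ((hmem _).2 (Or.inr (Or.inl ⟨j, rfl⟩)))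
    have h2 := hx _ ((hmem _).2 (Or.inr (Or.inr ⟨j, rfl⟩)))
    simp only [hU, hU', hp] at h1 h2
    have e1 : ∑ k, ((Pi.single j 1 : Fin I.n → ℤ) k : ℝ) * x k = x j := by
      rw [Finset.sum_eq_single j]
      · simp
      · intro b _ hb
        simp [Pi.single_eq_of_ne hb]
      · intro h; exact absurd (Finset.mem_univ _) h
    have e2 : ∑ k, ((Pi.single j (-1) : Fin I.n → ℤ) k : ℝ) * x k = -x j := by
      rw [Finset.sum_eq_single j]
      · simp
      · intro b _ hb
        simp [Pi.single_eq_of_ne hb]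
      · intro h; exact absurd (Finset.mem_univ _) h
    rw [e1] at h1
    rw [e2] at h2
    push_cast at h1 h2
    have h3 : (1 : ℝ) ≤ 2 ^ s := one_le_pow₀ (by norm_num)
    have h4 : (2 : ℝ) ^ (s + 2) = 4 * 2 ^ s := by rw [pow_add]; ring
    rw [abs_le, h4]
    constructor <;> linarith
  · intro j
    have e1 : qF I.n (fobC I.code) j =
        ((if decide (j ∈ I.C) = true then BN.ofBits (Nat.bits (I.q j)) else ⟨0⟩ : BN).val : ℤ) := by
      unfold qF
      rw [hoff, List.getD_eq_getElem _ _ (by simp)]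
      simp
    rw [e1]
    split_ifs with h
    · rw [BN.ofBits]
      simp only [bval_bits]
      exact hpow _ _ ((hqs j).trans (by omega))
    · simp
  · intro j
    have e1 : hF I.n (fobC I.code) j = I.h j := by
      unfold hF
      rw [hoff, List.getD_eq_getElem _ _ (by simp)]
      simp [val_zof]
    rw [e1, Int.abs_eq_natAbs]
    exact hpow _ _ ((hhs j).trans (by omega))
  · intro x
    have e1 : ∀ j : Fin I.n, ∑ k, (Pi.single j 1 : Fin I.n → ℤ) k * x k = x j := by
      intro j
      rw [Finset.sum_eq_single j]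
      · simp
      · intro b _ hb
        simp [Pi.single_eq_of_ne hb]
      · intro h; exact absurd (Finset.mem_univ _) h
    have e2 : ∀ j : Fin I.n, ∑ k, (Pi.single j (-1) : Fin I.n → ℤ) k * x k = -x j := by
      intro j
      rw [Finset.sum_eq_single j]
      · simp
      · intro b _ hb
        simp [Pi.single_eq_of_ne hb]
      · intro h; exact absurd (Finset.mem_univ _) h
    constructor
    · intro hx
      constructor
      · intro i
        have := hx _ ((hmem _).2 (Or.inl ⟨i, rfl⟩))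
        simp only [hWrow, val_zof] at this
        exact this
      · intro j
        have h1 := hx _ ((hmem _).2 (Or.inr (Or.inl ⟨j, rfl⟩)))
        have h2 := hx _ ((hmem _).2 (Or.inr (Or.inr ⟨j, rfl⟩)))
        simp only [hU, hU', hp, e1, e2] at h1 h2
        rw [abs_le]
        constructor <;> linarith
    · rintro ⟨hf, hb⟩ r hr
      rcases (hmem r).1 hr with ⟨i, rfl⟩ | ⟨i, rfl⟩ | ⟨i, rfl⟩
      · simp only [hWrow, val_zof]
        exact hf i
      · simp only [hU, hp, e1]
        exact (abs_le.1 (hb i)).2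
      · simp only [hU', hp, e2]
        have := (abs_le.1 (hb i)).1
        linarith
  · have h1 : ∀ i, |I.w i| ≤ 2 ^ (Nat.bits (I.w i).natAbs).length := by
      intro i
      rw [Int.abs_eq_natAbs]
      exact hpow _ _ le_rfl
    have h2 := sum_pow (Finset.univ : Finset (Fin I.m))
      (fun i => (Nat.bits (I.w i).natAbs).length)
    have h3 : ∑ i, ((Nat.bits (I.w i).natAbs).length + 1) ≤ s := by omega
    have h4 := h2.trans (Nat.pow_le_pow_right (by norm_num) h3)
    calc ∑ i, |I.w i| ≤ ∑ i, 2 ^ (Nat.bits (I.w i).natAbs).length :=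
          Finset.sum_le_sum fun i _ => h1 i
      _ ≤ 2 ^ s := by exact_mod_cast h4

end Pool.Agent.Helper81.SQ
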